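import Pool.Agent.Helper75.FU.StL

/-!
# MP_b1e6de_al, project FU, module L4: large elements of the lattice lie in the monoid
-/

set_option autoImplicit false

namespace Pool.Agent.Helper28.FU

open Pool.Agent.Helper75.FU

theorem hL4 : StL4 := by
  classical
  intro n M D hD hM
  have hD0 : NeZero D := ⟨hD.ne'⟩
  let rep : (Fin n → ZMod D) → (Fin n → ℕ) := fun κ =>
    if h : ∃ m ∈ M, ∀ i, ((m i : ℕ) : ZMod D) = κ i then h.choose else 0
  have hrep : ∀ κ : Fin n → ZMod D, (∃ m ∈ M, ∀ i, ((m i : ℕ) : ZMod D) = κ i) →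
      rep κ ∈ M ∧ ∀ i, ((rep κ i : ℕ) : ZMod D) = κ i := by
    intro κ h
    have e : rep κ = h.choose := dif_pos h
    rw [e]
    exact h.choose_spec
  refine ⟨∑ κ, ∑ i, rep κ i, ?_⟩
  intro x hx hab
  obtain ⟨a, ha, b, hb, rfl⟩ := hab
  set κ : Fin n → ZMod D := fun i => ((x i : ℕ) : ZMod D) with hκ
  have hex : ∃ m ∈ M, ∀ i, ((m i : ℕ) : ZMod D) = κ i := by
    refine ⟨(x + b) + (D - 1) • b, M.add_mem ha (M.nsmul_mem hb _), ?_⟩
    intro i
    have e1 : ((x + b) + (D - 1) • b) i = x i + D * b i := by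
      simp only [Pi.add_apply, Pi.smul_apply, smul_eq_mul]
      obtain ⟨d, rfl⟩ : ∃ d, D = d + 1 := ⟨D - 1, by omega⟩
      rw [Nat.add_sub_cancel]
      ring
    rw [e1, hκ]
    push_cast
    simp
  obtain ⟨hm1, hm2⟩ := hrep κ hex
  have hle : ∀ i, rep κ i ≤ x i := by
    intro i
    refine le_trans ?_ (hx i)
    calc rep κ i ≤ ∑ i, rep κ i :=
          Finset.single_le_sum (f := fun i => rep κ i) (fun _ _ => Nat.zero_le _) (Finset.mem_univ i)
      _ ≤ ∑ κ, ∑ i, rep κ i :=
          Finset.single_le_sum (f := fun κ => ∑ i, rep κ i) (fun _ _ => Nat.zero_le _)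
            (Finset.mem_univ κ)
  have hdvd : ∀ i, D ∣ x i - rep κ i := by
    intro i
    have h1 : ((rep κ i : ℕ) : ZMod D) = ((x i : ℕ) : ZMod D) := hm2 i
    rw [ZMod.natCast_eq_natCast_iff] at h1
    exact (Nat.modEq_iff_dvd' (hle i)).1 h1
  choose t ht using hdvd
  have hsum : x = rep κ + ∑ i, t i • (Pi.single i D : Fin n → ℕ) := by
    funext j
    rw [Pi.add_apply, Finset.sum_apply]
    have e2 : ∑ i, (t i • (Pi.single i D : Fin n → ℕ)) j = t j * D := by
      rw [Finset.sum_eq_single j]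
      · simp
      · intro i _ hij
        simp [hij.symm]
      · intro h
        exact absurd (Finset.mem_univ j) h
    rw [e2]
    have h3 := ht j
    have h4 := hle j
    rw [mul_comm] at h3
    omega
  rw [hsum]
  exact M.add_mem hm1 (M.sum_mem fun i _ => M.nsmul_mem (hM i) _)

end Pool.Agent.Helper28.FU
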