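import Pool.Agent.Helper75.FU.StG

/-!
# MP_b1e6de_al, project FU, module G0: a natural family of matrices with first row `(w^{(s+1)!}; c)`
-/

set_option autoImplicit false

namespace Pool.Agent.Helper28.FU

open Polynomial Pool.Agent.Helper91.GU Pool.Agent.Helper75.FU

universe u

/-- the sign change of one row -/
def dG (s : ℕ) (D : Type u) [CommRing D] : Matrix (Unit ⊕ Fin (s + 1)) (Unit ⊕ Fin (s + 1)) D :=
  Matrix.diagonal (fun i => if i = Sum.inr 0 then -1 else 1)

theorem dG_det (s : ℕ) (D : Type u) [CommRing D] : (dG s D).det = -1 := by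
  unfold dG
  rw [Matrix.det_diagonal, Fintype.prod_sum_type]
  simp

theorem hG0 (hC5 : StC5.{u}) : StG0.{u} := by
  intro s
  obtain ⟨τ, hτ1, hτ2⟩ := hC5 s
  refine ⟨fun D _ w c a' z => dG s D *
    (τ D (c 0) w (Fin.tail c) (z 0) (Fin.cons a' (Fin.tail z))).submatrix id
      (Equiv.swap (Sum.inl ()) (Sum.inr 0)), ?_, ?_⟩
  · intro D _ w c a' z h
    have hrel : c 0 * z 0 + (Fin.cons w (Fin.tail c) : Fin (s + 1) → D) ⬝ᵥ
        (Fin.cons a' (Fin.tail z) : Fin (s + 1) → D) = 1 := by
      rw [← h]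
      simp only [dotProduct, Fin.sum_univ_succ, Fin.cons_zero, Fin.cons_succ, Fin.tail]
      ring
    obtain ⟨h1, h2⟩ := hτ1 D (c 0) w (Fin.tail c) (z 0) (Fin.cons a' (Fin.tail z)) hrel
    constructor
    · rw [Matrix.det_mul, dG_det, Matrix.det_permute', h1, Equiv.Perm.sign_swap (by simp)]
      simp
    · funext j
      have e : (dG s D * (τ D (c 0) w (Fin.tail c) (z 0) (Fin.cons a' (Fin.tail z))).submatrix id
          (Equiv.swap (Sum.inl ()) (Sum.inr 0))) (Sum.inl ()) j
          = (τ D (c 0) w (Fin.tail c) (z 0) (Fin.cons a' (Fin.tail z))) (Sum.inl ())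
            (Equiv.swap (Sum.inl ()) (Sum.inr 0) j) := by
        unfold dG
        rw [Matrix.diagonal_mul]
        simp
      refine e.trans ?_
      rw [h2]
      rcases j with ⟨⟩ | j
      · rw [Equiv.swap_apply_left]
        rfl
      · refine Fin.cases ?_ (fun k => ?_) j
        · rw [Equiv.swap_apply_right]
          rfl
        · rw [Equiv.swap_apply_of_ne_of_ne (by simp) (by simp [Fin.succ_ne_zero])]
          rfl
  · intro D D' _ _ ψ w c a' z
    have e1 : (dG s D).map ψ = dG s D' := by
      unfold dG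
      rw [Matrix.diagonal_map (map_zero ψ)]
      congr 1
      funext i
      show ψ _ = _
      split_ifs <;> simp
    have e2 : mp ψ (Fin.cons a' (Fin.tail z) : Fin (s + 1) → D) = Fin.cons (ψ a') (Fin.tail (mp ψ z)) := by
      funext i
      refine Fin.cases ?_ (fun k => ?_) i
      · rfl
      · rfl
    have e3 := hτ2 D D' ψ (c 0) w (Fin.tail c) (z 0) (Fin.cons a' (Fin.tail z))
    rw [e2] at e3
    refine (Matrix.map_mul ..).trans ?_
    rw [e1]
    congr 1
    rw [← Matrix.submatrix_map, e3]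
    rfl

end Pool.Agent.Helper28.FU
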